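import Mathlib
import Pool.Agent.Lib.SchrijverLower
import Pool.Agent.helper22.SchrijverColouring

/-!
# Interlacing edges of Schrijver graphs are critical

For every `d` there is a threshold `K` (explicitly `(d+1)(L d+1)`, with `L` from
`Pool.Agent.helper22.SchrijverColouring`) such that for all `k > K` every interlacing edge of
`SG(2k+d,k)` is critical.

* `not_colorable`: the lower bound, `SG(2k+d,k)` is not `(d+1)`-colourable for `k ≥ 1`
  (proved in `Pool.Agent.Lib.SchrijverLower` from a combinatorial lemma on signed chains);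
* `colorable`: after deleting an interlacing edge, there is a proper `(d+1)`-colouring; it is built
  by induction on `d` in `Pool.Agent.helper22.SchrijverColouring`, after a rotation of the cycle
  which produces a long arc that is free of elements outside `X ∪ Y`.
-/

set_option autoImplicit false

open Finset

namespace Pool.Agent.Results.MP_42f12b_co.InterlacingCritical

/-- The vertices of the Schrijver graph `SG(n,k)`: the `k`-element subsets of the vertex set
`{0,…,n-1}` of the cycle `C_n` that are independent in `C_n`. -/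
abbrev Vertex (n k : ℕ) : Type :=
  {A : Finset (Fin n) // A.card = k ∧ (SimpleGraph.cycleGraph n).IsIndepSet (A : Set (Fin n))}

/-- The Schrijver graph `SG(n,k)`: two vertices are adjacent when they are disjoint (and distinct,
which is automatic for `k ≥ 1`). -/
def SG (n k : ℕ) : SimpleGraph (Vertex n k) where
  Adj A B := A ≠ B ∧ Disjoint A.1 B.1
  symm := ⟨fun _ _ h => ⟨h.1.symm, h.2.symm⟩⟩
  loopless := ⟨fun _ h => h.1 rfl⟩

/-- An edge `e` of `G` is critical if deleting it lowers the chromatic number. -/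
def IsCritical {V : Type} (G : SimpleGraph V) (e : Sym2 V) : Prop :=
  (G.deleteEdges {e}).chromaticNumber < G.chromaticNumber

/-- `X` and `Y` alternate along the cycle: whenever `a < b` are in `X ∪ Y` and no element of
`X ∪ Y` lies strictly between them, exactly one of `a`, `b` is in `X` and the other one in `Y`. -/
def Interlacing {n : ℕ} (X Y : Finset (Fin n)) : Prop :=
  ∀ a b : Fin n, a < b → a ∈ X ∪ Y → b ∈ X ∪ Y → (∀ c, a < c → c < b → c ∉ X ∪ Y) →
    (a ∈ X ↔ b ∈ Y)

lemma adj_iff {n : ℕ} (hn : 2 ≤ n) (u v : Fin n) :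
    (SimpleGraph.cycleGraph n).Adj u v ↔ (u.val + 1 = v.val ∨ v.val + 1 = u.val ∨
      (u.val = 0 ∧ v.val + 1 = n) ∨ (v.val = 0 ∧ u.val + 1 = n)) := by
  rw [SimpleGraph.cycleGraph_adj', Fin.val_sub, Fin.val_sub]
  have hu := u.isLt
  have hv := v.isLt
  have h1 : ∀ a b : ℕ, a < n → b < n → ((n - b + a) % n = 1 ↔ (b + 1 = a ∨ (a = 0 ∧ b + 1 = n))) := by
    intro a b ha hb
    rcases Nat.lt_or_ge a b with h | h
    · rw [Nat.mod_eq_of_lt (by omega)]
      omega
    · have : n - b + a = (a - b) + n := by omega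
      rw [this, Nat.add_mod_right, Nat.mod_eq_of_lt (by omega)]
      omega
  rw [h1 _ _ hu hv, h1 _ _ hv hu]
  tauto

lemma indep_iff {n : ℕ} (hn : 2 ≤ n) (A : Finset (Fin n)) :
    (SimpleGraph.cycleGraph n).IsIndepSet (A : Set (Fin n)) ↔ Lib.Schrijver.Stable A := by
  unfold Lib.Schrijver.Stable
  constructor
  · intro h i hi j hj
    by_cases hij : i = j
    · subst hij
      omega
    · have h3 : ¬ (SimpleGraph.cycleGraph n).Adj i j := h hi hj hij
      rw [adj_iff hn] at h3
      push Not at h3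
      exact ⟨h3.1, fun h' => h3.2.2.1 h'.1 h'.2⟩
  · intro h i hi j hj _
    show ¬ (SimpleGraph.cycleGraph n).Adj i j
    rw [adj_iff hn]
    have h1 := h i hi j hj
    have h2 := h j hj i hi
    tauto

/-- Schrijver's lower bound: `SG(2k+d,k)` is not `(d+1)`-colourable. -/
theorem not_colorable {k d : ℕ} (hk : 1 ≤ k) : ¬ (SG (2 * k + d) k).Colorable (d + 1) := by
  classical
  rintro ⟨C⟩
  set n := 2 * k + d with hn
  have hn2 : 2 ≤ n := by omega
  let c : Finset (Fin n) → ℕ := fun A =>
    if h : A.card = k ∧ (SimpleGraph.cycleGraph n).IsIndepSet (A : Set (Fin n)) then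
      (C ⟨A, h⟩).val + 1 else 1
  have hc : ∀ A (h1 : A.card = k) (h2 : Lib.Schrijver.Stable A),
      c A = (C ⟨A, h1, (indep_iff hn2 A).2 h2⟩).val + 1 := by
    intro A h1 h2
    simp only [c]
    rw [dif_pos ⟨h1, (indep_iff hn2 A).2 h2⟩]
  refine Lib.Schrijver.no_colouring (n := n) (k := k) (d := d) (c := c) hk hn ?_ ?_ ?_
  · intro A h1 h2
    rw [hc A h1 h2]
    omega
  · intro A h1 h2
    rw [hc A h1 h2]
    have := (C ⟨A, h1, (indep_iff hn2 A).2 h2⟩).isLt
    omega
  · intro A B h1 h2 h3 h4 hAB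
    rw [hc A h1 h2, hc B h3 h4]
    intro heq
    have hadj : (SG n k).Adj ⟨A, h1, (indep_iff hn2 A).2 h2⟩ ⟨B, h3, (indep_iff hn2 B).2 h4⟩ := by
      refine ⟨?_, hAB⟩
      intro h
      have h' : A = B := congrArg Subtype.val h
      rw [h', disjoint_self] at hAB
      rw [hAB] at h3
      simp at h3
      omega
    apply C.valid hadj
    apply Fin.ext
    omega

section rotation

open Pool.Agent.helper22.Col

variable {n : ℕ}

/-- rotation of the cycle which brings `r` to `0` -/
def rot (n r i : ℕ) : ℕ := if r ≤ i then i - r else i + n - r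

lemma rot_lt {r i : ℕ} (hi : i < n) (hr : r < n) : rot n r i < n := by
  unfold rot; split_ifs <;> omega

lemma rot_inj {r i j : ℕ} (hi : i < n) (hj : j < n) (hr : r < n) (h : rot n r i = rot n r j) :
    i = j := by
  unfold rot at h; split_ifs at h <;> omega

/-- rotated set -/
def im (r : ℕ) (A : Finset (Fin n)) : Finset ℕ := A.image (fun i => rot n r i.val)

lemma inj_rot {r : ℕ} (hr : r < n) : Function.Injective (fun i : Fin n => rot n r i.val) :=
  fun i j h => Fin.ext (rot_inj i.isLt j.isLt hr h)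

lemma im_card {r : ℕ} (hr : r < n) (A : Finset (Fin n)) : (im r A).card = A.card :=
  card_image_of_injective _ (inj_rot hr)

lemma mem_im {r x : ℕ} {A : Finset (Fin n)} : x ∈ im r A ↔ ∃ i ∈ A, rot n r i.val = x := by
  unfold im
  rw [mem_image]

lemma im_disj {r : ℕ} (hr : r < n) {A B : Finset (Fin n)} (h : Disjoint A B) :
    Disjoint (im r A) (im r B) := by
  rw [Finset.disjoint_left] at h ⊢
  intro x hx hx'
  rw [mem_im] at hx hx'
  obtain ⟨i, hi, rfl⟩ := hx
  obtain ⟨j, hj, hij⟩ := hx'
  have := inj_rot hr hij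
  subst this
  exact h hi hj

lemma im_inj {r : ℕ} (hr : r < n) {A B : Finset (Fin n)} (h : im r A = im r B) : A = B :=
  Finset.image_injective (inj_rot hr) h

lemma im_St {r : ℕ} (hr : r < n) {A : Finset (Fin n)} (h : Lib.Schrijver.Stable A) :
    St n (im r A) := by
  refine ⟨?_, ?_, ?_⟩
  · intro x hx
    rw [mem_im] at hx
    obtain ⟨i, _, rfl⟩ := hx
    exact rot_lt i.isLt hr
  · intro x hx hx'
    rw [mem_im] at hx hx'
    obtain ⟨i, hi, rfl⟩ := hx
    obtain ⟨j, hj, hij⟩ := hx'
    have h1 := h i hi j hj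
    have h2 := h j hj i hi
    have hi' := i.isLt
    have hj' := j.isLt
    unfold rot at hij
    split_ifs at hij <;> omega
  · rintro ⟨hx, hx'⟩
    rw [mem_im] at hx hx'
    obtain ⟨i, hi, hi0⟩ := hx
    obtain ⟨j, hj, hj0⟩ := hx'
    have h1 := h i hi j hj
    have h2 := h j hj i hi
    have hi' := i.isLt
    have hj' := j.isLt
    unfold rot at hi0 hj0
    split_ifs at hi0 hj0 <;> omega

/-- number of elements of `Z` below `i` -/
def cf (Z : Finset (Fin n)) (i : ℕ) : ℕ := (Z.filter (fun z => z.val < i)).card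

lemma alt_parity {X Y Z : Finset (Fin n)} (hXY : Disjoint X Y) (hZ : ∀ i, i ∈ Z ↔ i ∉ X ∪ Y)
    (hne : (X ∪ Y).Nonempty) (h : Interlacing X Y) :
    ∃ ε < 2, ∀ i ∈ X ∪ Y, (i ∈ X ↔ (i.val + cf Z i.val) % 2 = ε) := by
  have hY : ∀ i ∈ X ∪ Y, (i ∈ Y ↔ i ∉ X) := by
    intro i hi
    rw [mem_union] at hi
    constructor
    · intro h1 h2
      exact (Finset.disjoint_left.1 hXY) h2 h1
    · intro h1
      exact hi.resolve_left h1
  set i0 := (X ∪ Y).min' hne with hi0
  have hi0U : i0 ∈ X ∪ Y := min'_mem _ hne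
  refine ⟨if i0 ∈ X then (i0.val + cf Z i0.val) % 2 else (i0.val + cf Z i0.val + 1) % 2, ?_, ?_⟩
  · split_ifs <;> omega
  have key : ∀ m : ℕ, ∀ j : Fin n, j.val = m → j ∈ X ∪ Y → (j ∈ X ↔ (j.val + cf Z j.val) % 2 =
      if i0 ∈ X then (i0.val + cf Z i0.val) % 2 else (i0.val + cf Z i0.val + 1) % 2) := by
    intro m
    induction m using Nat.strong_induction_on with
    | _ m ih =>
    intro j hjm hj
    by_cases hj0 : j = i0
    · rw [hj0]
      by_cases hX : i0 ∈ X
      · simp [hX]
      · simp only [hX, if_false, false_iff]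
        omega
    · have hlt : i0 < j := lt_of_le_of_ne (min'_le _ _ hj) (Ne.symm hj0)
      have hne' : ((X ∪ Y).filter (· < j)).Nonempty := ⟨i0, by rw [mem_filter]; exact ⟨hi0U, hlt⟩⟩
      set i := ((X ∪ Y).filter (· < j)).max' hne' with hi
      have hi1 := max'_mem _ hne'
      rw [← hi, mem_filter] at hi1
      obtain ⟨hiU, hij⟩ := hi1
      have hgap : ∀ c, i < c → c < j → c ∉ X ∪ Y := by
        intro c hc1 hc2 hcU
        have := le_max' ((X ∪ Y).filter (· < j)) c (by rw [mem_filter]; exact ⟨hcU, hc2⟩)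
        rw [← hi] at this
        exact absurd hc1 (not_lt.2 this)
      have hI := h i j hij hiU hj hgap
      have hih := ih i.val (by rw [← hjm]; exact hij) i rfl hiU
      -- the number of elements of `Z` below `j`
      have hcf : cf Z j.val = cf Z i.val + (j.val - i.val - 1) := by
        unfold cf
        have hdisj : Disjoint (Z.filter (fun z => z.val < i.val)) (Finset.Ioo i j) := by
          rw [Finset.disjoint_left]
          intro z hz hz'
          rw [mem_filter] at hz
          rw [Finset.mem_Ioo, Fin.lt_def, Fin.lt_def] at hz'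
          omega
        have hun : Z.filter (fun z => z.val < j.val) =
            Z.filter (fun z => z.val < i.val) ∪ Finset.Ioo i j := by
          ext z
          rw [mem_union, mem_filter, mem_filter, Finset.mem_Ioo, Fin.lt_def, Fin.lt_def]
          constructor
          · rintro ⟨h1, h2⟩
            rcases lt_trichotomy z.val i.val with h3 | h3 | h3
            · exact Or.inl ⟨h1, h3⟩
            · exfalso
              have : z = i := Fin.ext h3
              rw [this, hZ] at h1
              exact h1 hiU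
            · exact Or.inr ⟨h3, h2⟩
          · rintro (⟨h1, h2⟩ | ⟨h1, h2⟩)
            · have : i.val < j.val := hij
              exact ⟨h1, by omega⟩
            · exact ⟨(hZ z).2 (hgap z h1 h2), h2⟩
        rw [hun, card_union_of_disjoint hdisj, Fin.card_Ioo]
      have hij' : i.val < j.val := hij
      have hYj := hY j hj
      have : (j ∈ X ↔ ¬ i ∈ X) := by
        rw [hI, hYj, not_not]
      rw [this, hih, hcf]
      split_ifs <;> omega
  intro j hj
  exact key j.val j rfl hj

lemma cz_im {r : ℕ} (hr : r < n) (Z : Finset (Fin n)) {i : ℕ} (hi : i < n) :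
    cz (im r Z) (rot n r i) + cf Z r = if r ≤ i then cf Z i else Z.card + cf Z i := by
  have h1 : cz (im r Z) (rot n r i) = (Z.filter (fun z => rot n r z.val < rot n r i)).card := by
    unfold cz
    rw [← card_image_of_injective (Z.filter (fun z => rot n r z.val < rot n r i)) (inj_rot hr)]
    congr 1
    ext x
    rw [mem_filter, mem_im, mem_image]
    constructor
    · rintro ⟨⟨z, hz, rfl⟩, h⟩
      exact ⟨z, by rw [mem_filter]; exact ⟨hz, h⟩, rfl⟩
    · rintro ⟨z, hz, rfl⟩
      rw [mem_filter] at hz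
      exact ⟨⟨z, hz.1, rfl⟩, hz.2⟩
  rw [h1]
  by_cases hri : r ≤ i
  · rw [if_pos hri]
    unfold cf
    rw [← card_union_of_disjoint]
    · congr 1
      ext z
      have hz := z.isLt
      rw [mem_union, mem_filter, mem_filter, mem_filter]
      unfold rot
      rw [if_pos hri]
      constructor
      · rintro (⟨h2, h3⟩ | ⟨h2, h3⟩)
        · refine ⟨h2, ?_⟩
          split_ifs at h3 <;> omega
        · exact ⟨h2, by omega⟩
      · rintro ⟨h2, h3⟩
        by_cases h4 : r ≤ z.val
        · left
          rw [if_pos h4]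
          exact ⟨h2, by omega⟩
        · right
          exact ⟨h2, by omega⟩
    · rw [Finset.disjoint_left]
      intro z hz hz'
      rw [mem_filter] at hz hz'
      have hz2 := hz.2
      have hzn := z.isLt
      unfold rot at hz2
      rw [if_pos hri, if_neg (by omega)] at hz2
      omega
  · rw [if_neg hri]
    unfold cf
    rw [← card_union_add_card_inter]
    congr 1
    · congr 1
      ext z
      have hzn := z.isLt
      rw [mem_union, mem_filter, mem_filter]
      unfold rot
      rw [if_neg hri]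
      constructor
      · rintro (⟨h2, h3⟩ | ⟨h2, h3⟩) <;> exact h2
      · intro h2
        by_cases h4 : r ≤ z.val
        · left
          rw [if_pos h4]
          exact ⟨h2, by omega⟩
        · right
          exact ⟨h2, by omega⟩
    · congr 1
      ext z
      have hzn := z.isLt
      rw [mem_inter, mem_filter, mem_filter, mem_filter]
      unfold rot
      rw [if_neg hri]
      constructor
      · rintro ⟨⟨h2, h3⟩, ⟨_, h4⟩⟩
        rw [if_neg (by omega)] at h3
        exact ⟨h2, by omega⟩
      · rintro ⟨h2, h3⟩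
        rw [if_neg (by omega)]
        exact ⟨⟨h2, by omega⟩, h2, by omega⟩

/-- After a suitable rotation, `X` and `Y` are the two parity classes. -/
lemma classes {k d : ℕ} (hn : n = 2 * k + d) (hk : 1 ≤ k) {X Y Z : Finset (Fin n)}
    (hXY : Disjoint X Y) (hX : X.card = k) (hY : Y.card = k) (hZ : ∀ i, i ∈ Z ↔ i ∉ X ∪ Y)
    (hZc : Z.card = d) (h : Interlacing X Y) {r : ℕ} (hr : r < n) :
    (im r X = XX n (im r Z) ∧ im r Y = YY n (im r Z)) ∨
    (im r X = YY n (im r Z) ∧ im r Y = XX n (im r Z)) := by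
  have hne : (X ∪ Y).Nonempty := by
    rw [← card_pos, card_union_of_disjoint hXY]; omega
  obtain ⟨ε, hε2, hε⟩ := alt_parity hXY hZ hne h
  have hZ'c : (im r Z).card = d := by rw [im_card hr, hZc]
  have hZ'n : ∀ z ∈ im r Z, z < n := by
    intro z hz
    rw [mem_im] at hz
    obtain ⟨i, _, rfl⟩ := hz
    exact rot_lt i.isLt hr
  obtain ⟨_, cX, _, cY⟩ := XX_facts hn hZ'c hZ'n (by omega)
  have hpar : ∀ i ∈ X ∪ Y, (rot n r i.val + cz (im r Z) (rot n r i.val)) % 2 = 0 ↔
      ((i.val + cf Z i.val) + (r + cf Z r)) % 2 = 0 := by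
    intro i _
    have h1 := cz_im hr Z i.isLt
    have hi := i.isLt
    rw [hZc] at h1
    generalize cz (im r Z) (rot n r i.val) = a at h1 ⊢
    unfold rot
    split_ifs at h1 ⊢ <;> omega
  have hnot : ∀ i ∈ X ∪ Y, rot n r i.val ∉ im r Z := by
    intro i hi hi'
    rw [mem_im] at hi'
    obtain ⟨j, hj, hij⟩ := hi'
    have := inj_rot hr hij
    subst this
    exact ((hZ j).1 hj) hi
  have hYiff : ∀ i ∈ Y, ¬ (i.val + cf Z i.val) % 2 = ε := by
    intro i hi h'
    have hU : i ∈ X ∪ Y := mem_union_right _ hi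
    exact (Finset.disjoint_left.1 hXY) ((hε i hU).2 h') hi
  by_cases h0 : (ε + (r + cf Z r)) % 2 = 0
  · left
    constructor
    · apply eq_of_subset_of_card_le
      · intro x hx
        rw [mem_im] at hx
        obtain ⟨i, hi, rfl⟩ := hx
        have hU : i ∈ X ∪ Y := mem_union_left _ hi
        rw [mem_XX]
        refine ⟨rot_lt i.isLt hr, hnot i hU, (hpar i hU).2 ?_⟩
        have := (hε i hU).1 hi
        omega
      · rw [cX, im_card hr, hX]
    · apply eq_of_subset_of_card_le
      · intro x hx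
        rw [mem_im] at hx
        obtain ⟨i, hi, rfl⟩ := hx
        have hU : i ∈ X ∪ Y := mem_union_right _ hi
        rw [mem_YY]
        refine ⟨rot_lt i.isLt hr, hnot i hU, ?_⟩
        have h1 := hYiff i hi
        have h2 := hpar i hU
        omega
      · rw [cY, im_card hr, hY]
  · right
    constructor
    · apply eq_of_subset_of_card_le
      · intro x hx
        rw [mem_im] at hx
        obtain ⟨i, hi, rfl⟩ := hx
        have hU : i ∈ X ∪ Y := mem_union_left _ hi
        rw [mem_YY]
        refine ⟨rot_lt i.isLt hr, hnot i hU, ?_⟩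
        have h1 := (hε i hU).1 hi
        have h2 := hpar i hU
        omega
      · rw [cY, im_card hr, hX]
    · apply eq_of_subset_of_card_le
      · intro x hx
        rw [mem_im] at hx
        obtain ⟨i, hi, rfl⟩ := hx
        have hU : i ∈ X ∪ Y := mem_union_right _ hi
        rw [mem_XX]
        refine ⟨rot_lt i.isLt hr, hnot i hU, ?_⟩
        have h1 := hYiff i hi
        have h2 := hpar i hU
        omega
      · rw [cX, im_card hr, hY]

/-- Upper bound: deleting an interlacing edge leaves a `(d+1)`-colourable graph. -/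
theorem colorable {k d : ℕ} (hk : 1 ≤ k) (hbig : (d + 1) * (L d + 1) ≤ 2 * k + d)
    (A B : Vertex (2 * k + d) k) (hAB : (SG (2 * k + d) k).Adj A B) (hI : Interlacing A.1 B.1) :
    ((SG (2 * k + d) k).deleteEdges {s(A, B)}).Colorable (d + 1) := by
  classical
  generalize hn : 2 * k + d = n at A B hAB hI hbig
  have hn' : n = 2 * k + d := hn.symm
  have hn2 : 2 ≤ n := by omega
  obtain ⟨X, hX, hXi⟩ := A
  obtain ⟨Y, hY, hYi⟩ := B
  have hXY : Disjoint X Y := hAB.2
  set Z : Finset (Fin n) := (X ∪ Y)ᶜ with hZdef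
  have hZ : ∀ i, i ∈ Z ↔ i ∉ X ∪ Y := fun i => mem_compl
  have hZc : Z.card = d := by
    rw [hZdef, card_compl, Fintype.card_fin, card_union_of_disjoint hXY, hX, hY]
    omega
  -- a long free arc
  obtain ⟨j, hj, hfree⟩ : ∃ j < d + 1, ∀ z ∈ Z, z.val / (L d + 1) ≠ j := by
    by_contra hcon
    push Not at hcon
    have hsub : range (d + 1) ⊆ Z.image (fun z => z.val / (L d + 1)) := by
      intro j hj
      rw [mem_range] at hj
      obtain ⟨z, hz, h⟩ := hcon j hj
      rw [mem_image]
      exact ⟨z, hz, h⟩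
    have h1 := card_le_card hsub
    rw [card_range] at h1
    have h2 : (Z.image (fun z => z.val / (L d + 1))).card ≤ Z.card := card_image_le
    omega
  set r := j * (L d + 1) + L d with hr_def
  have hr : r < n := by
    have h1 : (j + 1) * (L d + 1) ≤ (d + 1) * (L d + 1) := Nat.mul_le_mul_right _ (by omega)
    have h2 : (j + 1) * (L d + 1) = j * (L d + 1) + (L d + 1) := by ring
    omega
  have hblock : ∀ z ∈ Z, z.val + L d < r ∨ r < z.val := by
    intro z hz
    have h1 := hfree z hz
    by_contra hcon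
    push Not at hcon
    apply h1
    have h2 : z.val / (L d + 1) = j := by
      apply Nat.div_eq_of_lt_le
      · omega
      · have h2 : (j + 1) * (L d + 1) = j * (L d + 1) + (L d + 1) := by ring
        omega
    exact h2
  have hZ1 : ∀ z ∈ im r Z, 1 ≤ z := by
    intro x hx
    rw [mem_im] at hx
    obtain ⟨z, hz, rfl⟩ := hx
    have h1 := hblock z hz
    have h2 := z.isLt
    unfold rot
    split_ifs <;> omega
  have hZ2 : ∀ z ∈ im r Z, z + L d < n := by
    intro x hx
    rw [mem_im] at hx
    obtain ⟨z, hz, rfl⟩ := hx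
    have h1 := hblock z hz
    have h2 := z.isLt
    unfold rot
    split_ifs <;> omega
  obtain ⟨φ, g1, g2, g3, _⟩ := good_all d n k (im r Z) hn' hk (by rw [im_card hr, hZc]) hZ1 hZ2
  have hcls := classes hn' hk hXY hX hY hZ hZc hI hr
  have hSt : ∀ V : Vertex n k, St n (im r V.1) := fun V =>
    im_St hr ((indep_iff hn2 V.1).1 V.2.2)
  have hcd : ∀ V : Vertex n k, (im r V.1).card = k := fun V => by rw [im_card hr, V.2.1]
  refine ⟨SimpleGraph.Coloring.mk
    (fun V => (⟨φ (im r V.1), Nat.lt_succ_of_le (g1 _ (hSt V) (hcd V))⟩ : Fin (d + 1))) ?_⟩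
  intro V W hVW heq
  rw [SimpleGraph.deleteEdges_adj] at hVW
  obtain ⟨⟨_, hdis⟩, hnot⟩ := hVW
  have heq' : φ (im r V.1) = φ (im r W.1) := congrArg Fin.val heq
  apply hnot
  have hres : (V.1 = X ∧ W.1 = Y) ∨ (V.1 = Y ∧ W.1 = X) := by
    rcases g3 _ _ (hSt V) (hcd V) (hSt W) (hcd W) (im_disj hr hdis) heq' with ⟨a, b⟩ | ⟨a, b⟩
    · rcases hcls with ⟨e, f⟩ | ⟨e, f⟩
      · exact Or.inl ⟨im_inj hr (a.trans e.symm), im_inj hr (b.trans f.symm)⟩
      · exact Or.inr ⟨im_inj hr (a.trans f.symm), im_inj hr (b.trans e.symm)⟩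
    · rcases hcls with ⟨e, f⟩ | ⟨e, f⟩
      · exact Or.inr ⟨im_inj hr (a.trans f.symm), im_inj hr (b.trans e.symm)⟩
      · exact Or.inl ⟨im_inj hr (a.trans e.symm), im_inj hr (b.trans f.symm)⟩
  rw [Set.mem_singleton_iff, Sym2.eq_iff]
  rcases hres with ⟨a, b⟩ | ⟨a, b⟩
  · exact Or.inl ⟨Subtype.ext a, Subtype.ext b⟩
  · exact Or.inr ⟨Subtype.ext a, Subtype.ext b⟩

end rotation

/-- **Every interlacing edge of `SG(2k+d,k)` is critical when `k` is large.** -/
theorem result : ∀ d : ℕ, ∃ K : ℕ, ∀ k : ℕ, K < k → ∀ X Y : Vertex (2 * k + d) k,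
    (SG (2 * k + d) k).Adj X Y → Interlacing X.1 Y.1 → IsCritical (SG (2 * k + d) k) s(X, Y) := by
  intro d
  refine ⟨(d + 1) * (Pool.Agent.helper22.Col.L d + 1), fun k hk X Y hXY hI => ?_⟩
  have hk1 : 1 ≤ k := by omega
  unfold IsCritical
  have h1 := (colorable hk1 (by omega) X Y hXY hI).chromaticNumber_le
  have h2 : ¬ (SG (2 * k + d) k).chromaticNumber ≤ ((d + 1 : ℕ) : ℕ∞) := by
    rw [SimpleGraph.chromaticNumber_le_iff_colorable]
    exact not_colorable hk1
  exact lt_of_le_of_lt h1 (not_le.1 h2)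

end Pool.Agent.Results.MP_42f12b_co.InterlacingCritical
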